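import Pool.Agent.Helper51.UG.Gen
import Pool.Graph.R_pool_sql_team_seeded_1acbe0a2.Y987.SZ.Forms

set_option autoImplicit false

/-!
# Uniform tuples: homothetic copies of every finite pattern inside arbitrary sets of `n` with all `n + a_i` prime

Let `a_1, ..., a_κ` be different integers `0 ≤ a_i ≤ X ^ C`, `κ` fixed, and let `A` be an ARBITRARY set of integers `n` in an
interval `(u, u + X]`, `u ≤ X ^ C`, for which all the numbers `n + a_i` are primes, or have no prime factor up to `X ^ θ`.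
For all but at most `δ X V` of the members `n` of `A` the set `n + d T` is contained in `A` for at least `D ^ (1 - ε)` of the
dilations `d ≤ D`, for EVERY finite set `T` of at most `k` integers in `[-H, H]`; for `n + d T` contained in `A` all the
numbers `n + a_i + d t` are primes. Here `X V` is the expected order of magnitude of the number of the `n`. All of this is
uniform in the `a_i`, in `T`, and in `H` up to a power of `X`. If the set of the `a_i` is admissible, at least `c X V` integers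
`n` have all these copies with all the numbers `n + a_i + d t` almost primes.
-/

namespace Pool.Agent.Results.MP_f686a1_nt.ShiftedTuplePatterns

open Finset Filter
open Pool.Agent.Helper51.UG (FZ VV RG cps FormsOK)
open Pool.Agent.Y677.RSZ (rt)

/-- The integers `n ∈ (u, u + X]` for which all prime factors of all the numbers `n + a_i` are larger than `z`. -/
def Tuples {κ : ℕ} (a : Fin κ → ℕ) (z : ℝ) (u X : ℕ) : Set ℕ :=
  {n | u < n ∧ n ≤ u + X ∧ ∀ i, ∀ p : ℕ, p.Prime → p ∣ n + a i → z < p}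

/-- The number of the residues `c` modulo `p` such that `p` divides some `c + a_i`. -/
def nu {κ : ℕ} (a : Fin κ → ℕ) (p : ℕ) : ℕ := ((range p).filter (fun c : ℕ => ∃ i, p ∣ c + a i)).card

/-- The product of `1 - nu p / p` over the primes `p ≤ z`. -/
noncomputable def V {κ : ℕ} (a : Fin κ → ℕ) (z : ℕ) : ℝ :=
  ∏ p ∈ (Icc 1 z).filter Nat.Prime, (1 - (nu a p : ℝ) / p)

/-- The number of the dilations `1 ≤ d ≤ D` for which all the numbers `n + d t`, `t ∈ T`, belong to `A`. -/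
noncomputable def scales (A : Set ℕ) (T : Finset ℤ) (D n : ℕ) : ℕ :=
  {d : ℕ | 1 ≤ d ∧ d ≤ D ∧ ∀ t ∈ T, ∃ m ∈ A, (m : ℤ) = n + d * t}.ncard

/-- The set of the `a_i` is admissible: for every prime `p` some class modulo `p` contains none of the `a_i`. -/
def Admissible {κ : ℕ} (a : Fin κ → ℕ) : Prop :=
  ∀ p : ℕ, p.Prime → ∃ r : ℕ, ∀ i, ¬ a i ≡ r [MOD p]

/-- the coefficients -/
def one (κ : ℕ) (_ : Fin κ) : ℤ := 1

/-- the constant terms -/
def ct {κ : ℕ} (a : Fin κ → ℕ) (i : Fin κ) : ℤ := (a i : ℤ)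

theorem forms_iff {κ : ℕ} (a : Fin κ → ℕ) (i : Fin κ) (p m : ℕ) :
    (p : ℤ) ∣ one κ i * (m : ℤ) + ct a i ↔ p ∣ m + a i := by
  unfold one ct
  rw [one_mul, ← Nat.cast_add, Int.natCast_dvd_natCast]

theorem V_eq {κ : ℕ} (a : Fin κ → ℕ) (z : ℕ) : VV (FZ (one κ) (ct a)) z = V a z := by
  unfold VV V
  refine prod_congr rfl fun p hp => ?_
  rw [mem_filter] at hp
  have h1 : rt (FZ (one κ) (ct a)) p = nu a p := by
    unfold rt nu
    congr 1
    apply filter_congr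
    intro c _
    rw [Pool.Agent.Helper51.UG.FZ_dvd _ _ hp.2]
    exact exists_congr fun i => forms_iff a i p c
  rw [h1]

theorem tuples_eq {κ : ℕ} (a : Fin κ → ℕ) (z : ℝ) (u X : ℕ) :
    Tuples a z u X = RG (one κ) (ct a) z u X := by
  ext m
  constructor
  · rintro ⟨h1, h2, h3⟩
    exact ⟨h1, h2, fun i q hq hd => h3 i q hq ((forms_iff a i q m).1 hd)⟩
  · rintro ⟨h1, h2, h3⟩
    exact ⟨h1, h2, fun i q hq hd => h3 i q hq ((forms_iff a i q m).2 hd)⟩

theorem ok {κ : ℕ} (a : Fin κ → ℕ) (hinj : Function.Injective a) (C u X : ℕ)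
    (ha : ∀ i, a i ≤ X ^ C) : FormsOK 1 C X u (one κ) (ct a) := by
  refine ⟨fun j => ⟨?_, ?_, ?_⟩, fun i j hij => ?_, fun j n hn1 hn2 => ?_⟩
  · unfold one
    norm_num
  · unfold one
    norm_num
  · unfold ct
    rw [abs_of_nonneg (by positivity)]
    exact_mod_cast ha j
  · unfold one ct
    intro h0
    rw [one_mul, one_mul] at h0
    exact hij (hinj (Int.natCast_inj.1 h0))
  · unfold one ct
    have h1 : (0 : ℤ) ≤ (a j : ℤ) := by positivity
    have h2 : (0 : ℤ) < (n : ℤ) := by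
      have : 0 < n := by omega
      exact_mod_cast this
    omega

theorem adm {κ : ℕ} (a : Fin κ → ℕ) (h : Admissible a) :
    ∀ p : ℕ, p.Prime → ∃ n : ℕ, ∀ j, ¬ (p : ℤ) ∣ one κ j * n + ct a j := by
  intro p hp
  obtain ⟨r, hr⟩ := h p hp
  refine ⟨(p - r % p), fun j hd => ?_⟩
  rw [forms_iff] at hd
  apply hr j
  have h1 : r % p < p := Nat.mod_lt _ hp.pos
  have h2 : p ∣ (p - r % p) + a j := hd
  have h3 : (p - r % p) + a j ≡ 0 [MOD p] := (Nat.modEq_zero_iff_dvd).2 h2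
  have h4 : (p - r % p) + a j + r % p ≡ 0 + r % p [MOD p] := Nat.ModEq.add_right _ h3
  have h5 : (p - r % p) + a j + r % p = p + a j := by omega
  rw [h5, zero_add] at h4
  have h6 : p + a j ≡ a j [MOD p] := by
    unfold Nat.ModEq
    rw [Nat.add_mod_left]
  have h7 : r % p ≡ r [MOD p] := Nat.mod_modEq _ _
  exact h6.symm.trans (h4.trans h7)

theorem ex_n {κ : ℕ} (a : Fin κ → ℕ) (y : ℕ)
    (h : ∀ p : ℕ, p.Prime → ∃ n : ℕ, ∀ j, ¬ (p : ℤ) ∣ one κ j * n + ct a j) :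
    ∃ n : ℤ, ∀ p : ℕ, p.Prime → p ≤ y → ¬ (p : ℤ) ∣ FZ (one κ) (ct a) n := by
  classical
  obtain ⟨b, hb⟩ := Pool.Agent.Y987.SZ.exists_class
    (fun p => (range p).filter (fun r : ℕ => (p : ℤ) ∣ FZ (one κ) (ct a) r)) y (by
      intro p hp
      have hpp := (mem_filter.1 hp).2
      obtain ⟨n, hn⟩ := h p hpp
      refine lt_of_lt_of_eq (card_lt_card ?_) (card_range p)
      refine (filter_ssubset).2 ⟨n % p, mem_range.2 (Nat.mod_lt _ hpp.pos), fun hd => ?_⟩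
      rw [Pool.Agent.Helper51.UG.FZ_dvd _ _ hpp] at hd
      obtain ⟨i, hi⟩ := hd
      exact hn i ((Pool.Agent.Helper51.UG.per_mod _ _ hpp n i).2 hi))
  refine ⟨b, fun p hp hpy hd => ?_⟩
  have hp1 : p ∈ Pool.Agent.Y843.HS.Pr 0 y := by
    unfold Pool.Agent.Y843.HS.Pr
    rw [mem_filter, mem_Ioc]
    exact ⟨⟨hp.pos, hpy⟩, hp⟩
  apply hb p hp1
  rw [mem_filter, mem_range]
  refine ⟨Nat.mod_lt _ hp.pos, ?_⟩
  rw [Pool.Agent.Helper51.UG.FZ_dvd _ _ hp] at hd ⊢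
  obtain ⟨i, hi⟩ := hd
  exact ⟨i, (Pool.Agent.Helper51.UG.per_mod _ _ hp b i).1 hi⟩

/-- **Homothetic copies of every pattern inside arbitrary sets of `n` with all `n + a_i` prime, uniformly in the `a_i`.** -/
theorem result (κ : ℕ) :
    -- (1) arbitrary sets
    (∀ (C k : ℕ) (ε θ δ : ℝ), 0 < ε → ε < 1 → 0 < θ → θ ≤ 1 → 0 < δ → ∃ X₀ : ℕ, ∀ X H D u : ℕ, X₀ ≤ X → u ≤ X ^ C →
      1 ≤ H → (X : ℝ) ^ ε ≤ D → (D : ℝ) * H ≤ (X : ℝ) ^ (1 - ε) →
      ∀ a : Fin κ → ℕ, Function.Injective a → (∀ i, a i ≤ X ^ C) →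
      ∀ A ⊆ Tuples a ((X : ℝ) ^ θ) u X, ∀ T : Finset ℤ, T.card ≤ k → (∀ t ∈ T, |t| ≤ H) →
        ({n : ℕ | n ∈ A ∧ (scales A T D n : ℝ) < (D : ℝ) ^ (1 - ε)}.ncard : ℝ) ≤
          δ * (X * V a ⌊(X : ℝ) ^ θ⌋₊)) ∧
    -- (2) almost primes
    ∃ θ c : ℝ, 0 < θ ∧ θ ≤ 1 ∧ 0 < c ∧ ∀ C : ℕ, ∃ R : ℕ, ∀ (k : ℕ) (ε : ℝ), 0 < ε → ε < 1 →
      ∃ X₀ : ℕ, ∀ X H D u : ℕ, X₀ ≤ X → u ≤ X ^ C →
      1 ≤ H → (X : ℝ) ^ ε ≤ D → (D : ℝ) * H ≤ (X : ℝ) ^ (1 - ε) →
      ∀ a : Fin κ → ℕ, Function.Injective a → (∀ i, a i ≤ X ^ C) → Admissible a →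
      (∀ n ∈ Tuples a ((X : ℝ) ^ θ) u X, ∀ i, (n + a i).primeFactorsList.length ≤ R) ∧
      c / Real.log X ^ κ ≤ V a ⌊(X : ℝ) ^ θ⌋₊ ∧
      ∀ T : Finset ℤ, T.card ≤ k → (∀ t ∈ T, |t| ≤ H) →
        c * (X * V a ⌊(X : ℝ) ^ θ⌋₊) ≤ ({n : ℕ | n ∈ Tuples a ((X : ℝ) ^ θ) u X ∧
          (D : ℝ) ^ (1 - ε) ≤ (scales (Tuples a ((X : ℝ) ^ θ) u X) T D n : ℝ)}.ncard : ℝ) := by
  refine ⟨?_, ?_⟩
  · intro C k ε θ δ hε hε1 hθ hθ1 hδ
    obtain ⟨X₀, h⟩ := Pool.Agent.Helper51.UG.ptSetU κ 1 (C + 1) k ε (θ / 2) δ hε hε1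
      (by positivity) hδ
    obtain ⟨X₁, hX₁⟩ := Pool.Agent.Helper51.UD.ev_rpow 2 (θ / 2) (by positivity)
    refine ⟨max (max X₀ X₁) 1, fun X H D u hX huC hH hD hDH a hinj ha A hA T hTk hT => ?_⟩
    have g0 : X₀ ≤ X := ((le_max_left _ _).trans (le_max_left _ _)).trans hX
    have g1 := hX₁ X (((le_max_right _ _).trans (le_max_left _ _)).trans hX)
    have g2 : 1 ≤ X := (le_max_right _ _).trans hX
    have hX1 : (1 : ℝ) ≤ X := by exact_mod_cast g2
    have hX0 : (0 : ℝ) < X := by linarith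
    have hmono : X ^ C ≤ X ^ (C + 1) := Nat.pow_le_pow_right g2 (Nat.le_succ C)
    have hf := ok a hinj (C + 1) u X (fun i => (ha i).trans hmono)
    rw [tuples_eq] at hA
    have h1 := h X H D u ⌊(X : ℝ) ^ θ⌋₊ g0 (huC.trans hmono) (by
        have e1 : (X : ℝ) ^ θ = (X : ℝ) ^ (θ / 2) * (X : ℝ) ^ (θ / 2) := by
          rw [← Real.rpow_add hX0]
          congr 1
          ring
        have e2 : (X : ℝ) ^ θ < (⌊(X : ℝ) ^ θ⌋₊ : ℝ) + 1 := Nat.lt_floor_add_one _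
        nlinarith) (by
        have e1 : (⌊(X : ℝ) ^ θ⌋₊ : ℝ) ≤ X := by
          refine (Nat.floor_le (by positivity)).trans ?_
          calc (X : ℝ) ^ θ ≤ (X : ℝ) ^ (1 : ℝ) := Real.rpow_le_rpow_of_exponent_le hX1 hθ1
            _ = X := Real.rpow_one _
        have e2 : ⌊(X : ℝ) ^ θ⌋₊ ≤ X := by exact_mod_cast e1
        exact e2.trans (Nat.le_self_pow (Nat.succ_ne_zero _) X))
      hH hD hDH _ _ hf A
      (fun m hm => ⟨(hA hm).1, (hA hm).2.1, fun i q hq hqd =>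
        (Nat.floor_lt (by positivity)).2 ((hA hm).2.2 i q hq hqd)⟩)
      T hTk hT
    rw [V_eq] at h1
    exact h1
  · obtain ⟨θ, c, hθ0, hθ1, hc, h⟩ := Pool.Agent.Helper51.UG.genU κ
    obtain ⟨c₂, hc₂, y₀, hy₀, hlow⟩ := Pool.Agent.Helper51.UG.lowV κ 1
    refine ⟨θ, min c c₂, hθ0, hθ1, lt_min hc hc₂, fun C => ?_⟩
    obtain ⟨R, hR⟩ : ∃ R : ℕ, (C + 2) / θ ≤ (R : ℝ) := ⟨_, Nat.le_ceil _⟩
    refine ⟨R, fun k ε hε hε1 => ?_⟩
    obtain ⟨X₀, h⟩ := h C k ε hε hε1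
    obtain ⟨X₁, hX₁⟩ := Pool.Agent.Helper51.UD.ev_rpow (max y₀ 3) θ hθ0
    refine ⟨max (max X₀ X₁) 4, fun X H D u hX huC hH hD hDH a hinj ha hadm => ⟨?_, ?_⟩⟩
    · -- the numbers of prime factors
      intro m hm i
      have g2 : 4 ≤ X := (le_max_right _ _).trans hX
      have hX1 : (4 : ℝ) ≤ X := by exact_mod_cast g2
      have hX0 : (0 : ℝ) < X := by linarith
      obtain ⟨h1, h2, h3⟩ := hm
      have h9 : m + a i ≤ X ^ (C + 2) := by
        have e : X ^ (C + 2) = X ^ C * (X * X) := by ring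
        have e1 : 1 ≤ X ^ C := Nat.one_le_pow _ _ (by omega)
        have e2 : X ≤ X ^ C * X := Nat.le_mul_of_pos_left _ e1
        have e3 : X ^ C * (4 * X) ≤ X ^ C * (X * X) :=
          Nat.mul_le_mul_left _ (Nat.mul_le_mul_right _ g2)
        have e4 : X ^ C ≤ X ^ C * X := Nat.le_mul_of_pos_right _ (by omega)
        have e5 := ha i
        have e6 : X ^ C * (4 * X) = 4 * (X ^ C * X) := by ring
        omega
      have hy1 : 1 ≤ (X : ℝ) ^ θ := Real.one_le_rpow (by linarith) hθ0.le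
      have hyR : ((X ^ (C + 2) : ℕ) : ℝ) < ((X : ℝ) ^ θ) ^ (R + 1) := by
        rw [← Real.rpow_natCast ((X : ℝ) ^ θ) (R + 1), ← Real.rpow_mul hX0.le, Nat.cast_pow,
          ← Real.rpow_natCast (X : ℝ) (C + 2)]
        apply Real.rpow_lt_rpow_of_exponent_lt (by linarith)
        rw [div_le_iff₀ hθ0] at hR
        push_cast
        nlinarith
      exact Pool.Agent.Y987.SZ.len_rough hy1 (by omega) (lt_of_le_of_lt (by exact_mod_cast h9) hyR)
        (fun p hp hpd => h3 i p hp hpd)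
    · have g0 : X₀ ≤ X := ((le_max_left _ _).trans (le_max_left _ _)).trans hX
      have g1 := hX₁ X (((le_max_right _ _).trans (le_max_left _ _)).trans hX)
      have g2 : 4 ≤ X := (le_max_right _ _).trans hX
      have hX1 : (4 : ℝ) ≤ X := by exact_mod_cast g2
      have hX0 : (0 : ℝ) < X := by linarith
      have hlogX : 0 < Real.log X := Real.log_pos (by linarith)
      have hf := ok a hinj C u X ha
      have hadm' := adm a hadm
      obtain ⟨h1, h2⟩ := h X H D u g0 huC hH hD hDH _ _ hf hadm'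
      rw [V_eq] at h1 h2
      rw [tuples_eq]
      refine ⟨?_, fun T hTk hT => ?_⟩
      · have hy : y₀ ≤ ⌊(X : ℝ) ^ θ⌋₊ := Nat.le_floor ((le_max_left _ _).trans g1)
        have hy3 : 3 ≤ ⌊(X : ℝ) ^ θ⌋₊ := Nat.le_floor (by
          push_cast
          exact (le_max_right _ _).trans g1)
        have h3 := hlow _ _ (fun i => ⟨(hf.1 i).1, (hf.1 i).2.1⟩) _ hy (ex_n a _ hadm')
        rw [V_eq] at h3
        refine le_trans ?_ h3
        have hy3r : (3 : ℝ) ≤ (⌊(X : ℝ) ^ θ⌋₊ : ℝ) := by exact_mod_cast hy3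
        have hlogy : 0 < Real.log (⌊(X : ℝ) ^ θ⌋₊ : ℝ) := Real.log_pos (by linarith)
        have hyX : (⌊(X : ℝ) ^ θ⌋₊ : ℝ) ≤ X := by
          refine (Nat.floor_le (by positivity)).trans ?_
          calc (X : ℝ) ^ θ ≤ (X : ℝ) ^ (1 : ℝ) :=
                Real.rpow_le_rpow_of_exponent_le (by linarith) hθ1
            _ = X := Real.rpow_one _
        calc min c c₂ / Real.log X ^ κ ≤ c₂ / Real.log X ^ κ :=
              div_le_div_of_nonneg_right (min_le_right _ _) (by positivity)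
          _ ≤ c₂ / Real.log (⌊(X : ℝ) ^ θ⌋₊ : ℝ) ^ κ := by
              apply div_le_div_of_nonneg_left hc₂.le (by positivity)
              exact pow_le_pow_left₀ hlogy.le (Real.log_le_log (by linarith) hyX) _
      · refine le_trans ?_ (h2 T hTk hT)
        apply mul_le_mul_of_nonneg_right (min_le_left _ _)
        rw [← V_eq]
        exact mul_nonneg hX0.le (Pool.Agent.Helper51.UG.VV_nn _ _)

end Pool.Agent.Results.MP_f686a1_nt.ShiftedTuplePatterns
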