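import Pool.Agent.Helper12.ST.Fin

/-!
# Arbitrary families of tuples of shifts: the SAME `n` for many tuples

The question asks, for an admissible set of shifts, for an integer `n ≤ x` which shifts it into the primes. Let `m = k + 2`
be fixed. We consider an arbitrary family `T` of admissible `m`-tuples `a 0 < a 1 < ... < a (m - 1) ≤ x` of shifts in which
every vector of differences `a i - a 0` occurs at most `K` times and every integer occurs at most `K x ^ k` times as `a i`,
for each `i`, and which has at least `K x ^ (k + 1) / log ^ A x` members. Then at least `c x / (log log log x) ^ D` integers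
`n ≤ x` shift at least `c |T| / log ^ m x` members of the family into the primes at the same time. Here `c` and `D` depend
only on `k` and `A`; `K` is arbitrary, for instance a constant (and `T` has about `x ^ (k + 1)` members), or of the order of
magnitude `x` (and `T` is any not too sparse set of admissible `m`-tuples from `[0, x]`).

Up to the constant this is the expected number of members, and, since all members of the family may be in one residue class
modulo the product of the primes up to a multiple of `log log x`, one can not ask for more than `C x / log log log x`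
integers `n`.
-/

set_option autoImplicit false

open Finset Filter Topology

namespace Pool.Agent.Results.MP_f686a1_nt.SimultaneousTuples

/-- `a` lists an admissible set in increasing order: for every prime `p` some residue class modulo `p` contains no `a i`. -/
def Adm {m : ℕ} (a : Fin m → ℕ) : Prop :=
  StrictMono a ∧ ∀ p : ℕ, p.Prime → ∃ r : ℕ, ∀ i, ¬ a i ≡ r [MOD p]

/-- The members `a` of the family `T` of tuples for which all `n + a i` are prime. -/
def Shifted {m : ℕ} (T : Finset (Fin m → ℕ)) (n : ℕ) : Finset (Fin m → ℕ) :=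
  T.filter fun a => ∀ i, (n + a i).Prime

lemma adm_nat {m : ℕ} (a : Fin m → ℕ) (ha : Adm a) (p : ℕ) (hp : p.Prime) : ∃ c : ℕ, ∀ i, ¬ p ∣ c + a i := by
  obtain ⟨r, hr⟩ := ha.2 p hp
  refine ⟨p - r % p, fun i h => hr i ?_⟩
  have h1 : r % p < p := Nat.mod_lt _ hp.pos
  have h2 : (p - r % p) + a i ≡ (p - r % p) + r [MOD p] := by
    have h3 : (p - r % p) + r ≡ (p - r % p) + r % p [MOD p] := Nat.ModEq.add_left _ (Nat.mod_modEq _ _).symm
    have h4 : (p - r % p) + r % p = p := by omega
    rw [h4] at h3
    have h5 : (p - r % p) + a i ≡ 0 [MOD p] := Nat.modEq_zero_iff_dvd.2 h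
    have h6 : p ≡ 0 [MOD p] := by simp [Nat.ModEq]
    exact h5.trans (h3.trans h6).symm
  exact Nat.ModEq.add_left_cancel' _ h2

/-- **Arbitrary families of tuples of shifts: the same `n` for many tuples.** -/
theorem result (k A : ℕ) : ∃ c : ℝ, 0 < c ∧ ∃ D : ℕ, ∀ᶠ x : ℕ in atTop, ∀ (K : ℕ) (T : Finset (Fin (k + 2) → ℕ)),
    1 ≤ K → (∀ a ∈ T, Adm a ∧ ∀ i, a i ≤ x) → (∀ i v, #{a ∈ T | a i = v} ≤ K * x ^ k) →
    (∀ d : Fin (k + 2) → ℕ, #{a ∈ T | ∀ i, a i = a 0 + d i} ≤ K) → (K : ℝ) * x ^ (k + 1) ≤ #T * Real.log x ^ A →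
    c * x / Real.log (Real.log (Real.log x)) ^ D ≤
      #{n ∈ Icc 1 x | c * #T / Real.log x ^ (k + 2) ≤ (#(Shifted T n) : ℝ)} := by
  classical
  obtain ⟨c, hc, D, h⟩ := Pool.Agent.Helper12.ST.tuples k A
  refine ⟨c, hc, D, ?_⟩
  filter_upwards [h] with x hx
  intro K T hK hT ha hd hKT
  refine hx (Fin (k + 2) → ℕ) T id K hK (fun a h => ⟨(hT a h).1.1, (hT a h).2, adm_nat a (hT a h).1⟩) ha ?_ hKT
  intro d
  refine le_trans (card_le_card ?_) (hd (Fin.cons (α := fun _ => ℕ) 0 d))
  intro a h
  rw [mem_filter] at h ⊢
  refine ⟨h.1, fun i => ?_⟩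
  refine Fin.cases ?_ (fun j => ?_) i
  · simp
  · have h1 := h.2 j
    have h2 := (hT a h.1).1.1 (Fin.succ_pos j)
    simp only [id_eq] at h1
    rw [Fin.cons_succ]
    omega

end Pool.Agent.Results.MP_f686a1_nt.SimultaneousTuples
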