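import Pool.Agent.Helper51.UG.Idx

set_option autoImplicit false

/-!
# Prime `k`-tuples with almost all shifts: homothetic copies of every pattern inside arbitrary sets of prime tuples

Let `s i 1, ..., s i (x i)`, `i = 1, ..., k`, be ARBITRARY families of integers of absolute value at most `B N` of small additive
energy of some order `h` (for example, for `h = 1`, any sets of at least `N / log ^ C N` integers; for larger `h` sparse
families). For all but a proportion `1 / log ^ U N` of the vectors `q` in the box `1 ≤ q i ≤ x i`, ALL integers `a i` with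
`|a i - s i (q i)| ≤ log ^ D N` and ALL slopes `α i`, `0 < |α i| ≤ K`, for which the forms `n, α i n + a i` are different and have
no fixed prime divisor (for `α i = 1`: the shifts `0, a 1, ..., a k` are different and admissible) have these properties, in
EVERY window `(u, u + X]` within `(0, B N]` of length at least `N / log ^ A N`:
* the asymptotic formula for the number of the `n` with `n` and all `|α i n + a i|` prime;
* for EVERY set `P` of such `n` and EVERY finite set `T` of at most `m` integers in `[-H, H]`, all but a proportion `δ` (of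
  the number of all such `n`) of the members `n` of `P` have `n + d T` contained in `P` for at least `D' ^ (1 - ε)` of the
  `d ≤ D'`, uniformly up to `D' H = X ^ (1 - ε)`. (In particular the numbers `n + d t`, `α i (n + d t) + a i` are prime for all
  `t ∈ T`: for `α i = 1` this is a translate of the set of all `d t`, `a i + d t`.)
-/

namespace Pool.Agent.Results.MP_f686a1_nt.TypicalTuplePatterns

open Finset Filter
open Pool.Agent.Helper51.UG (PV cn_eq cps famW)
open Pool.Agent.TH935.TF (Gz Fq om Adm Dist cn consA consB)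
open Pool.Agent.H373R2.T7 (pz mem_pz)

/-- The additive energy of order `h` of the family `s 1, ..., s x`: the number of the solutions of
`s (v 1) + ... + s (v h) = s (w 1) + ... + s (w h)` with all `v i`, `w i` in `{1, ..., x}`. -/
def energy (h x : ℕ) (s : ℕ → ℤ) : ℕ :=
  (((Fintype.piFinset fun _ : Fin h => Icc 1 x) ×ˢ (Fintype.piFinset fun _ : Fin h => Icc 1 x)).filter
    (fun q => ∑ i, s (q.1 i) = ∑ i, s (q.2 i))).card

/-- The `n` of the window `(u, u + X]` for which `n` and all the numbers `|α i n + a i|` are primes. -/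
def Tuples {k : ℕ} (α a : Fin k → ℤ) (u X : ℕ) : Set ℕ :=
  {n | u < n ∧ n ≤ u + X ∧ n.Prime ∧ ∀ i, (α i * (n : ℤ) + a i).natAbs.Prime}

/-- The forms `n, α i n + a i` have no fixed prime divisor. For `α i = 1` this is the admissibility of `0, a 1, ..., a k`. -/
def Admissible {k : ℕ} (α a : Fin k → ℤ) : Prop :=
  ∀ q : ℕ, q.Prime → ∃ r : ℤ, ¬ (q : ℤ) ∣ r ∧ ∀ i, ¬ (q : ℤ) ∣ α i * r + a i

/-- The forms `n, α i n + a i` are different, also up to sign. For `α i = 1`: `0, a 1, ..., a k` are different. -/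
def Different {k : ℕ} (α a : Fin k → ℤ) : Prop :=
  (∀ i, ¬ (|α i| = 1 ∧ a i = 0)) ∧
    ∀ i j, i ≠ j → ¬ (α i = α j ∧ a i = a j) ∧ ¬ (α i = -α j ∧ a i = -a j)

/-- The number of the residues `r` modulo `q` for which `q` divides `r` or some `α i r + a i`. -/
def nu {k : ℕ} (α a : Fin k → ℤ) (q : ℕ) : ℕ :=
  ((range q).filter (fun r => q ∣ r ∨ ∃ i, (q : ℤ) ∣ α i * (r : ℤ) + a i)).card

/-- The partial products of the singular series. -/
noncomputable def series {k : ℕ} (α a : Fin k → ℤ) (z : ℕ) : ℝ :=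
  ∏ q ∈ (Icc 1 z).filter Nat.Prime, (1 - (nu α a q : ℝ) / q) / (1 - 1 / (q : ℝ)) ^ (k + 1)

/-- The number of the `1 ≤ d ≤ D` for which all the numbers `n + d t`, `t ∈ T`, belong to `P`. -/
noncomputable def scales (P : Set ℕ) (T : Finset ℤ) (D n : ℕ) : ℕ :=
  {d : ℕ | 1 ≤ d ∧ d ≤ D ∧ ∀ t ∈ T, ∃ q ∈ P, (q : ℤ) = n + d * t}.ncard

/-- The two properties (with the value `S` of the singular series). -/
def Rich {k : ℕ} (S : ℝ) (A B m : ℕ) (ε δ : ℝ) (N : ℕ) (α a : Fin k → ℤ) : Prop :=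
  ∀ u X : ℕ, u + X ≤ B * N → (N : ℝ) / Real.log N ^ A ≤ X →
    |((Tuples α a u X).ncard : ℝ) - S * X / Real.log N ^ (k + 1)| ≤ ε * (S * X / Real.log N ^ (k + 1)) ∧
    ((∀ i, ∀ n : ℕ, u < n → n ≤ u + 2 * X → α i * n + a i ≠ 0) →
      ∀ H D : ℕ, 1 ≤ H → (X : ℝ) ^ ε ≤ D → (D : ℝ) * H ≤ (X : ℝ) ^ (1 - ε) →
      ∀ P ⊆ Tuples α a u X, ∀ T : Finset ℤ, T.card ≤ m → (∀ t ∈ T, |t| ≤ H) →
        ({n : ℕ | n ∈ P ∧ (scales P T D n : ℝ) < (D : ℝ) ^ (1 - ε)}.ncard : ℝ) ≤
          δ * ((Tuples α a u X).ncard : ℝ))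

theorem gz_series {k : ℕ} (α a : Fin k → ℤ) (z : ℕ) :
    Gz (om (consA α) (consB a)) (k + 1) z = series α a z := by
  have hpz : pz z = (Icc 1 z).filter Nat.Prime := by
    ext p
    rw [mem_pz, mem_filter, mem_Icc]
    constructor
    · rintro ⟨h1, h2⟩
      exact ⟨⟨h2.pos, h1⟩, h2⟩
    · rintro ⟨⟨h0, h1⟩, h2⟩
      exact ⟨h1, h2⟩
  unfold Gz series Fq
  rw [hpz]
  refine prod_congr rfl fun p _ => ?_
  have : om (consA α) (consB a) p = nu α a p := by
    unfold om nu
    congr 1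
    apply filter_congr
    intro r _
    rw [Fin.exists_fin_succ]
    unfold consA consB
    simp only [Fin.cons_zero, Fin.cons_succ, one_mul, add_zero]
    rw [Int.natCast_dvd_natCast]
  rw [this]

theorem adm_of {k : ℕ} (α a : Fin k → ℤ) (h : Admissible α a) : Adm (consA α) (consB a) := by
  intro p hp
  obtain ⟨r, h1, h2⟩ := h p hp
  refine ⟨r, fun i => ?_⟩
  refine Fin.cases ?_ (fun j => ?_) i
  · unfold consA consB
    rw [Fin.cons_zero, Fin.cons_zero, one_mul, add_zero]
    exact h1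
  · unfold consA consB
    rw [Fin.cons_succ, Fin.cons_succ]
    exact h2 j

theorem dist_of {k : ℕ} (α a : Fin k → ℤ) (h : Different α a) : Dist (consA α) (consB a) := by
  intro i j
  refine Fin.cases ?_ (fun i' => ?_) i
  · refine Fin.cases ?_ (fun j' => ?_) j
    · intro h
      exact absurd rfl h
    · intro _
      unfold consA consB
      rw [Fin.cons_zero, Fin.cons_succ, Fin.cons_zero, Fin.cons_succ]
      refine ⟨fun h1 => h.1 j' ⟨?_, h1.2.symm⟩, fun h1 => h.1 j' ⟨?_, ?_⟩⟩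
      · rw [← h1.1, abs_one]
      · have : α j' = -1 := by
          have := h1.1
          omega
        rw [this, abs_neg, abs_one]
      · have := h1.2
        omega
  · refine Fin.cases ?_ (fun j' => ?_) j
    · intro _
      unfold consA consB
      rw [Fin.cons_zero, Fin.cons_succ, Fin.cons_zero, Fin.cons_succ]
      refine ⟨fun h1 => h.1 i' ⟨?_, h1.2⟩, fun h1 => h.1 i' ⟨?_, ?_⟩⟩
      · rw [h1.1, abs_one]
      · rw [h1.1, abs_neg, abs_one]
      · have := h1.2
        omega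
    · intro hij
      unfold consA consB
      rw [Fin.cons_succ, Fin.cons_succ, Fin.cons_succ, Fin.cons_succ]
      exact h.2 i' j' (fun h2 => hij (by rw [h2]))

/-- **Almost all vectors of shifts.** -/
theorem result (k h K A B C D U m : ℕ) (hk : 1 ≤ k) (ε δ : ℝ) (hε : 0 < ε) (hε1 : ε < 1) (hδ : 0 < δ) :
    ∃ N₀ : ℕ, ∀ N : ℕ, N₀ ≤ N → ∀ (x : Fin k → ℕ) (s : Fin k → ℕ → ℤ),
      (∀ i, ∀ j ∈ Icc 1 (x i), |s i j| ≤ B * N) →
      (∀ i, (energy h (x i) (s i) : ℝ) * N ≤ Real.log N ^ C * (x i : ℝ) ^ (2 * h)) →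
      ∃ E : Finset (Fin k → ℕ), (E.card : ℝ) ≤ (∏ i, (x i : ℝ)) / Real.log N ^ U ∧
        ∀ q ∈ Fintype.piFinset (fun i => Icc 1 (x i)), q ∉ E →
        ∀ a : Fin k → ℤ, (∀ i, |((a i - s i (q i) : ℤ) : ℝ)| ≤ Real.log N ^ D) →
        ∀ α : Fin k → ℤ, (∀ i, α i ≠ 0 ∧ |α i| ≤ K) → Admissible α a → Different α a →
          ∃ S : ℝ, 0 < S ∧ Tendsto (series α a) atTop (nhds S) ∧ Rich S A B m ε δ N α a := by
  classical
  obtain ⟨N₀, h0⟩ := famW k h K A B C D U m hk ε δ hε hε1 hδ
  refine ⟨N₀, fun N hN x s hs hE => ?_⟩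
  set 𝒮 : Finset (Fin k → ℕ) := (Fintype.piFinset (fun i => Icc 1 (x i))).filter (fun q =>
    ∃ β : Fin k → ℤ, (∀ i, |((β i - s i (q i) : ℤ) : ℝ)| ≤ Real.log N ^ D) ∧
      ¬ Pool.Agent.Helper51.UG.Rich K (B + 1) A m ε δ N β) with h𝒮
  refine ⟨𝒮, h0 N hN x s hs hE 𝒮 (filter_subset _ _) (fun q hq => (mem_filter.1 hq).2), ?_⟩
  intro q hq hqE a ha α hα hadm hdiff
  have hR : Pool.Agent.Helper51.UG.Rich K (B + 1) A m ε δ N a := by
    by_contra hcon
    exact hqE (mem_filter.2 ⟨hq, a, ha, hcon⟩)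
  obtain ⟨S, hS0, hS, hw⟩ := hR α hα (adm_of α a hadm) (dist_of α a hdiff)
  refine ⟨S, hS0, hS.congr fun z => gz_series α a z, fun u X huX hX => ?_⟩
  have hBN : B * N ≤ (B + 1) * N := Nat.mul_le_mul_right _ (by omega)
  obtain ⟨e1, e2⟩ := hw u X (huX.trans hBN) hX
  rw [cn_eq] at e1 e2
  exact ⟨e1, fun hne H D' hH hD hDH P hP T hTm hT => e2 hne H D' hH hD hDH P (fun n hn => hP hn) T hTm hT⟩

end Pool.Agent.Results.MP_f686a1_nt.TypicalTuplePatterns
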