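import Pool.Agent.Helper51.UD.Many

/-!
# Uniform prime `k`-tuples up to a small dilation of the shifts, for ARBITRARY shifts below `x ^ (1 - ε)`

Let `k ≥ 0`, `0 < ε < 1` and `δ > 0`. There are `B` and `X₀` such that for all `X ≥ X₀`, all `H ≥ 1` and `D` with
`D ≥ (log X) ^ B`, `D ≥ H ^ ε` and `D H ≤ X ^ (1 - ε)`, EVERY set `P` of at least `δ X / log X` primes up to `X` and
EVERY set `T` of at most `k` shifts in `[0, H]`: at least `D ^ (1 - ε)` of the dilations `1 ≤ d ≤ D` have the property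
that all of `n + d t`, `t ∈ T`, are primes of `P` for at least `X / D ^ ε` of the integers `1 ≤ n ≤ X`.

Nothing is assumed about `T` (it may depend on `X` and have elements as large as `X ^ (1 - 2 ε)`), and `B`, `X₀` do not
depend on it. With `D = 1` (and an admissible set) this would be the question for bounded `k`.

The proof is a relative Szemerédi theorem for the simplices `p, p + d e_1, ..., p + d e_r` in `(ℤ/N)^r`, `N` a power of
`log X`, whose points are mapped to the integers by the linear form with the coefficients `t`.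
-/

set_option autoImplicit false

open Finset

namespace Pool.Agent.Results.MP_f686a1_nt.UniformDilates

/-- the number of the `1 ≤ n ≤ X` such that `n + d t ∈ P` for all `t ∈ T` -/
def tuples (P T : Finset ℕ) (X d : ℕ) : ℕ :=
  ((Icc 1 X).filter (fun n => ∀ t ∈ T, n + d * t ∈ P)).card

/-- **Uniform prime tuples up to a small dilation.** -/
theorem result (k : ℕ) (ε δ : ℝ) (hε : 0 < ε) (hε1 : ε < 1) (hδ : 0 < δ) :
    ∃ B X₀ : ℕ, ∀ X H D : ℕ, X₀ ≤ X → 1 ≤ H → Real.log X ^ B ≤ D → (H : ℝ) ^ ε ≤ D →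
      (D : ℝ) * H ≤ (X : ℝ) ^ (1 - ε) →
      ∀ P ⊆ Icc 1 X, (∀ p ∈ P, p.Prime) → δ * (X / Real.log X) ≤ P.card →
      ∀ T : Finset ℕ, T.card ≤ k → (∀ t ∈ T, t ≤ H) →
        (D : ℝ) ^ (1 - ε) ≤
          (((Icc 1 D).filter (fun d => (X : ℝ) / (D : ℝ) ^ ε ≤ tuples P T X d)).card : ℝ) :=
  Pool.Agent.Helper51.UD.many k ε δ hε hε1 hδ

end Pool.Agent.Results.MP_f686a1_nt.UniformDilates
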